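import Mathlib
import Pool.Agent.H759R2.Kad.Props4

open scoped ComplexOrder InnerProductSpace ComplexConjugate
open Finset

noncomputable section

namespace H759R2.Kad

universe u v

theorem prove4_dhom : D_hom.{u, v} := by
  intro A _ H _ _ _ π D hD M hM hDM
  have hD1 : D 1 = 0 := by
    have h := hD 1 1
    simp only [mul_one, map_one, one_mul] at h
    exact left_eq_add.1 h
  refine ⟨⟨?_, ?_⟩, ?_⟩
  · intro a b
    ext x i
    fin_cases i <;>
      simp [uD, opMat_apply, Fin.sum_univ_two, hD, map_mul, map_add] <;> abel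
  · ext x i
    fin_cases i <;> simp [uD, opMat_apply, Fin.sum_univ_two, hD1]
  · intro a
    have hπ : ‖π a‖ ≤ ‖a‖ := NonUnitalStarAlgHom.norm_apply_le π a
    apply ContinuousLinearMap.opNorm_le_bound _ (by positivity)
    intro x
    -- diagonal part and corner part
    set y : HH (Fin 2) H := WithLp.toLp 2 (fun i => π a (x i)) with hy
    set z : HH (Fin 2) H := inj (0 : Fin 2) (D a (x 1)) with hz
    have h1 : uD π D a x = y + z := by
      ext i
      fin_cases i <;> simp [uD, opMat_apply, Fin.sum_univ_two, hy, hz, inj_apply]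
    have h2 : ‖y‖ ≤ ‖a‖ * ‖x‖ := by
      apply le_of_sq_le_sq _ (by positivity)
      rw [mul_pow, PiLp.norm_sq_eq_of_L2, PiLp.norm_sq_eq_of_L2, Finset.mul_sum]
      apply Finset.sum_le_sum
      intro i _
      rw [← mul_pow]
      apply pow_le_pow_left₀ (norm_nonneg _)
      exact ((π a).le_opNorm _).trans (mul_le_mul_of_nonneg_right hπ (norm_nonneg _))
    have h3 : ‖z‖ ≤ M * ‖a‖ * ‖x‖ := by
      have e1 : ‖z‖ = ‖D a (x 1)‖ := by
        rw [← sq_eq_sq₀ (norm_nonneg _) (norm_nonneg _), PiLp.norm_sq_eq_of_L2]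
        simp [hz, inj_apply, Fin.sum_univ_two]
      rw [e1]
      have e2 : ‖x 1‖ ≤ ‖x‖ := PiLp.norm_apply_le x 1
      calc ‖D a (x 1)‖ ≤ ‖D a‖ * ‖x 1‖ := (D a).le_opNorm _
        _ ≤ (M * ‖a‖) * ‖x‖ := mul_le_mul (hDM a) e2 (norm_nonneg _) (by positivity)
    rw [h1]
    calc ‖y + z‖ ≤ ‖y‖ + ‖z‖ := norm_add_le _ _
      _ ≤ ‖a‖ * ‖x‖ + M * ‖a‖ * ‖x‖ := add_le_add h2 h3
      _ = (1 + M) * ‖a‖ * ‖x‖ := by ring

end H759R2.Kad
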