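import Mathlib
import Pool.Agent.H759R2.Kad.Props4

open scoped ComplexOrder InnerProductSpace ComplexConjugate
open Finset

noncomputable section

namespace H759R2.Kad

universe u v

theorem prove4_dinner : D_inner.{u, v} := by
  intro A _ H _ _ _ π D hD S S' hSS' hS'S hstar
  have hS'Sx : ∀ x, S' (S x) = x := fun x => by
    have := congrArg (fun T : HH (Fin 2) H →L[ℂ] HH (Fin 2) H => T x) hS'S
    simpa using this
  have hSS'x : ∀ x, S (S' x) = x := fun x => by
    have := congrArg (fun T : HH (Fin 2) H →L[ℂ] HH (Fin 2) H => T x) hSS'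
    simpa using this
  have hu1 : ∀ a (x : HH (Fin 2) H), (uD π D a x) 1 = π a (x 1) := by
    intro a x
    simp [uD, opMat_apply, Fin.sum_univ_two]
  have hu0 : ∀ a (x : HH (Fin 2) H), (uD π D a x) 0 = π a (x 0) + D a (x 1) := by
    intro a x
    simp [uD, opMat_apply, Fin.sum_univ_two]
  set N : Submodule ℂ (HH (Fin 2) H) :=
    LinearMap.ker (((PiLp.proj 2 (fun _ : Fin 2 => H) (1 : Fin 2)) ∘L S' :
      HH (Fin 2) H →L[ℂ] H) : HH (Fin 2) H →ₗ[ℂ] H) with hN
  have hNmem : ∀ y, y ∈ N ↔ (S' y) 1 = 0 := by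
    intro y
    rw [hN, LinearMap.mem_ker]
    simp
  have hNc : IsClosed (N : Set (HH (Fin 2) H)) := ContinuousLinearMap.isClosed_ker _
  haveI : CompleteSpace N := hNc.completeSpace_coe
  have hinv : ∀ a, ∀ y ∈ N, S (uD π D a (S' y)) ∈ N := by
    intro a y hy
    rw [hNmem] at hy ⊢
    rw [hS'Sx, hu1, hy, map_zero]
  have hinv' : ∀ a, ∀ y ∈ Nᗮ, S (uD π D a (S' y)) ∈ Nᗮ := by
    intro a y hy
    rw [Submodule.mem_orthogonal] at hy ⊢
    intro w hw
    have h1 : ⟪w, (S * uD π D a * S') y⟫_ℂ = ⟪star (S * uD π D a * S') w, y⟫_ℂ := by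
      rw [ContinuousLinearMap.star_eq_adjoint, ContinuousLinearMap.adjoint_inner_left]
    have h2 := hy _ (hinv (star a) w hw)
    rw [hstar] at h1
    simp only [ContinuousLinearMap.mul_apply] at h1
    rw [h1]
    exact h2
  have hcomm : ∀ a y, N.starProjection (S (uD π D a (S' y))) = S (uD π D a (S' (N.starProjection y))) := by
    intro a y
    have h1 : N.starProjection y ∈ N := Submodule.starProjection_apply_mem N y
    have h2 : y - N.starProjection y ∈ Nᗮ := Submodule.sub_starProjection_mem_orthogonal y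
    have h3 := hinv a _ h1
    have h4 := hinv' a _ h2
    have h5 : S (uD π D a (S' y)) = S (uD π D a (S' (N.starProjection y))) +
        S (uD π D a (S' (y - N.starProjection y))) := by
      rw [← map_add, ← map_add, ← map_add, add_sub_cancel]
    rw [h5, map_add, Submodule.starProjection_eq_self_iff.2 h3,
      (Submodule.starProjection_apply_eq_zero_iff N).2 h4, add_zero]
  set E : HH (Fin 2) H →L[ℂ] HH (Fin 2) H := S' * N.starProjection * S with hE
  have hE1 : ∀ y, (E y) 1 = 0 := by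
    intro y
    have := (hNmem _).1 (Submodule.starProjection_apply_mem N (S y))
    simpa [hE] using this
  have hE0 : ∀ y : HH (Fin 2) H, y 1 = 0 → E y = y := by
    intro y hy
    have h1 : S y ∈ N := by rw [hNmem, hS'Sx]; exact hy
    simp only [hE, ContinuousLinearMap.mul_apply, Submodule.starProjection_eq_self_iff.2 h1, hS'Sx]
  have hEc : ∀ a y, E (uD π D a y) = uD π D a (E y) := by
    intro a y
    have h1 := hcomm a (S y)
    rw [hS'Sx] at h1
    simp only [hE, ContinuousLinearMap.mul_apply, h1, hS'Sx]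
  have hinjn : ∀ ξ : H, ‖(inj (1 : Fin 2) ξ : HH (Fin 2) H)‖ = ‖ξ‖ := by
    intro ξ
    rw [← sq_eq_sq₀ (norm_nonneg _) (norm_nonneg _), PiLp.norm_sq_eq_of_L2]
    simp [inj_apply, Fin.sum_univ_two]
  have hbound : ∀ ξ : H, ‖-(E (inj (1 : Fin 2) ξ)) 0‖ ≤ (‖S‖ * ‖S'‖) * ‖ξ‖ := by
    intro ξ
    rw [norm_neg]
    have h1 : ‖(E (inj (1 : Fin 2) ξ)) 0‖ ≤ ‖E (inj (1 : Fin 2) ξ)‖ := PiLp.norm_apply_le _ 0
    have h2 : ‖E‖ ≤ ‖S‖ * ‖S'‖ := by
      calc ‖E‖ ≤ ‖S' * N.starProjection‖ * ‖S‖ := norm_mul_le _ _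
        _ ≤ (‖S'‖ * ‖N.starProjection‖) * ‖S‖ := by gcongr; exact norm_mul_le _ _
        _ ≤ (‖S'‖ * 1) * ‖S‖ := by
          gcongr
          exact Submodule.starProjection_norm_le N
        _ = ‖S‖ * ‖S'‖ := by ring
    calc _ ≤ ‖E (inj (1 : Fin 2) ξ)‖ := h1
      _ ≤ ‖E‖ * ‖(inj (1 : Fin 2) ξ : HH (Fin 2) H)‖ := E.le_opNorm _
      _ ≤ (‖S‖ * ‖S'‖) * ‖ξ‖ := by rw [hinjn]; gcongr
  set Tl : H →ₗ[ℂ] H :=
    { toFun := fun ξ => -(E (inj (1 : Fin 2) ξ)) 0
      map_add' := by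
        intro x y
        simp only [map_add, PiLp.add_apply, neg_add]
      map_smul' := by
        intro c x
        simp only [map_smul, PiLp.smul_apply, RingHom.id_apply, smul_neg] } with hTl
  refine ⟨Tl.mkContinuous (‖S‖ * ‖S'‖) hbound, Tl.mkContinuous_norm_le (by positivity) hbound, ?_⟩
  intro a
  ext ξ
  have hT : ∀ ζ, Tl.mkContinuous (‖S‖ * ‖S'‖) hbound ζ = -(E (inj (1 : Fin 2) ζ)) 0 := fun ζ => rfl
  have hEi : ∀ ζ : H, E (inj (1 : Fin 2) ζ) = inj (0 : Fin 2) (-Tl.mkContinuous (‖S‖ * ‖S'‖) hbound ζ) := by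
    intro ζ
    ext i
    fin_cases i
    · simp [hT, inj_apply]
    · simp [inj_apply, hE1]
  have h1 := hEc a (inj (1 : Fin 2) ξ)
  have h2 : uD π D a (inj (1 : Fin 2) ξ) = inj (0 : Fin 2) (D a ξ) + inj (1 : Fin 2) (π a ξ) := by
    ext i
    fin_cases i
    · simp [hu0, inj_apply]
    · simp [hu1, inj_apply]
  rw [h2, map_add, hE0 (inj (0 : Fin 2) (D a ξ)) (by simp [inj_apply]), hEi, hEi] at h1
  have h3 := congrArg (fun x : HH (Fin 2) H => x 0) h1
  simp only [PiLp.add_apply, inj_apply, hu0] at h3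
  simp only [ContinuousLinearMap.sub_apply, ContinuousLinearMap.mul_apply]
  generalize Tl.mkContinuous (‖S‖ * ‖S'‖) hbound = T at h3 ⊢
  simp at h3
  have h4 : (D a) ξ = -(π a) (T ξ) - -T ((π a) ξ) := eq_sub_of_add_eq h3
  rw [h4]
  abel

end H759R2.Kad
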