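import Mathlib
import Pool.Agent.H759R2.Kad.Props4

open scoped ComplexOrder InnerProductSpace ComplexConjugate
open Finset

noncomputable section

namespace H759R2.Kad

universe u v

theorem prove4_dscale (h1 : D_hom.{u, v}) (h2 : D_inner.{u, v}) : D_scale.{u, v} := by
  intro A _ H _ _ _ R hR hsim π D hD M hM hDM
  rcases hM.eq_or_lt with hM0 | hM0
  · refine ⟨0, ?_, ?_⟩
    · rw [norm_zero]; positivity
    · intro a
      have := hDM a
      rw [← hM0, zero_mul, norm_le_zero_iff] at this
      rw [this]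
      simp
  · have hMc : (M : ℂ) ≠ 0 := by exact_mod_cast hM0.ne'
    set D' : A →ₗ[ℂ] (H →L[ℂ] H) := ((M : ℂ)⁻¹) • D with hD'
    have hD'd : ∀ a b, D' (a * b) = π a * D' b + D' a * π b := by
      intro a b
      simp only [hD', LinearMap.smul_apply, hD, smul_add, mul_smul_comm, smul_mul_assoc]
    have hD'n : ∀ a, ‖D' a‖ ≤ 1 * ‖a‖ := by
      intro a
      rw [hD', LinearMap.smul_apply, norm_smul, norm_inv, Complex.norm_real, Real.norm_of_nonneg hM,
        one_mul, inv_mul_le_iff₀ hM0]
      exact hDM a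
    obtain ⟨hh, hn⟩ := h1 A H π D' hD'd 1 zero_le_one hD'n
    obtain ⟨S, S', hS1, hS2, hS3, hS4⟩ := hsim (uD π D') hh (fun a => by
      have := hn a
      norm_num at this
      linarith)
    obtain ⟨T, hT1, hT2⟩ := h2 A H π D' hD'd S S' hS1 hS2 hS4
    refine ⟨(M : ℂ) • T, ?_, ?_⟩
    · rw [norm_smul, Complex.norm_real, Real.norm_of_nonneg hM, mul_comm]
      exact mul_le_mul_of_nonneg_right (hT1.trans hS3) hM
    · intro a
      have h3 : D a = (M : ℂ) • D' a := by
        rw [hD', LinearMap.smul_apply, smul_smul, mul_inv_cancel₀ hMc, one_smul]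
      rw [h3, hT2 a, smul_sub, smul_mul_assoc, mul_smul_comm]

end H759R2.Kad
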