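import Mathlib
import Pool.Agent.H759R2.Kad.Props4

open scoped ComplexOrder InnerProductSpace ComplexConjugate
open Finset

noncomputable section

namespace H759R2.Kad

universe u v

theorem prove4_feed (h : S_alg.{u}) : S_feed.{u, v} := by
  intro B _ _ _ K _ _ _ U hU C hC hUC V e hV hes hee ξ κ μ hξ hκ hμ hVeq
  have hm : ∀ a b x, U (a * b) x = U a (U b x) := by
    intro a b x
    rw [hU.mul]; rfl
  have h1m : ∀ x, U 1 x = x := by
    intro x; rw [hU.one]; rfl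
  -- the two components of the equation
  have hfξ : U (1 - e) ξ = 0 := by
    rw [map_sub, ContinuousLinearMap.sub_apply, h1m, hξ, sub_self]
  have hfκ : U (1 - e) κ = κ := by
    rw [map_sub, ContinuousLinearMap.sub_apply, h1m, hκ, sub_zero]
  have hfμ : U (1 - e) μ = μ := by
    rw [map_sub, ContinuousLinearMap.sub_apply, h1m, hμ, sub_zero]
  have eq1 : ξ = U (e * V * e) ξ + U (e * V * (1 - e)) μ := by
    have h1 : U e (U V (ξ + μ)) = ξ := by rw [hVeq, map_add, hξ, hκ, add_zero]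
    rw [hm, hm, hm, hm, hξ, hfμ, ← map_add, ← map_add, h1]
  have eq2 : κ = U ((1 - e) * V * e) ξ + U ((1 - e) * V * (1 - e)) μ := by
    have h1 : U (1 - e) (U V (ξ + μ)) = κ := by rw [hVeq, map_add, hfξ, hfκ, zero_add]
    rw [hm, hm, hm, hm, hξ, hfμ, ← map_add, ← map_add, h1]
  have key : ∀ ρ : ℝ, 0 ≤ ρ → ρ < 1 → ∃ b : B, ‖b‖ ^ 2 ≤ 3 / (1 - ρ) ∧
      ‖κ‖ ≤ C * ‖μ‖ + (1 - ρ) * (C * ‖b‖ * ‖ξ‖) := by
    intro ρ hρ0 hρ1
    obtain ⟨Y, hY1, hY2, hT, hb⟩ := h B V e hV hes hee ρ hρ0 hρ1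
    refine ⟨(1 - e) * V * e * Y * e, hb, ?_⟩
    have hξ2 : ξ = U Y (((1 - ρ : ℝ) : ℂ) • ξ + (ρ : ℂ) • U (e * V * (1 - e)) μ) := by
      have e1 : ((1 - ρ : ℝ) : ℂ) • ξ + (ρ : ℂ) • U (e * V * (1 - e)) μ =
          U (1 - (ρ : ℂ) • (e * V * e)) ξ := by
        have e2 : U (e * V * (1 - e)) μ = ξ - U (e * V * e) ξ := by
          rw [eq_sub_iff_add_eq, add_comm]; exact eq1.symm
        rw [e2, map_sub, map_smul, ContinuousLinearMap.sub_apply, ContinuousLinearMap.smul_apply, h1m,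
          smul_sub]
        push_cast
        rw [sub_smul, one_smul]
        abel
      rw [e1, ← hm, hY1, h1m]
    have hκ2 : κ = U ((1 - e) * V * (1 - e) + (ρ : ℂ) • ((1 - e) * V * e * Y * e * V * (1 - e))) μ +
        ((1 - ρ : ℝ) : ℂ) • U ((1 - e) * V * e * Y * e) ξ := by
      have e3 : U ((1 - e) * V * e) ξ = ((1 - ρ : ℝ) : ℂ) • U ((1 - e) * V * e * Y * e) ξ +
          (ρ : ℂ) • U ((1 - e) * V * e * Y * e * V * (1 - e)) μ := by
        conv_lhs => rw [hξ2]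
        rw [← hm, map_add, map_smul, map_smul, ← hm]
        congr 1
        · rw [hm _ e, hξ]
        · simp only [mul_assoc]
      conv_lhs => rw [eq2, e3]
      rw [map_add, ContinuousLinearMap.add_apply, map_smul, ContinuousLinearMap.smul_apply]
      abel
    have h1 : ‖U ((1 - e) * V * (1 - e) + (ρ : ℂ) • ((1 - e) * V * e * Y * e * V * (1 - e))) μ‖ ≤
        C * ‖μ‖ := by
      calc _ ≤ ‖U ((1 - e) * V * (1 - e) + (ρ : ℂ) • ((1 - e) * V * e * Y * e * V * (1 - e)))‖ * ‖μ‖ :=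
            ContinuousLinearMap.le_opNorm _ _
        _ ≤ (C * 1) * ‖μ‖ := by
            apply mul_le_mul_of_nonneg_right _ (norm_nonneg _)
            exact (hUC _).trans (mul_le_mul_of_nonneg_left hT hC)
        _ = C * ‖μ‖ := by ring
    have h2 : ‖((1 - ρ : ℝ) : ℂ) • U ((1 - e) * V * e * Y * e) ξ‖ ≤
        (1 - ρ) * (C * ‖(1 - e) * V * e * Y * e‖ * ‖ξ‖) := by
      rw [norm_smul, Complex.norm_real, Real.norm_of_nonneg (by linarith : (0 : ℝ) ≤ 1 - ρ)]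
      apply mul_le_mul_of_nonneg_left _ (by linarith)
      exact (ContinuousLinearMap.le_opNorm _ _).trans
        (mul_le_mul_of_nonneg_right (hUC _) (norm_nonneg _))
    calc ‖κ‖ = ‖U ((1 - e) * V * (1 - e) + (ρ : ℂ) • ((1 - e) * V * e * Y * e * V * (1 - e))) μ +
        ((1 - ρ : ℝ) : ℂ) • U ((1 - e) * V * e * Y * e) ξ‖ := by rw [← hκ2]
      _ ≤ _ := norm_add_le _ _
      _ ≤ _ := add_le_add h1 h2
  by_contra hcon
  push Not at hcon
  set d : ℝ := ‖κ‖ - C * ‖μ‖ with hd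
  have hd0 : 0 < d := by linarith
  set Q : ℝ := (C * ‖ξ‖) ^ 2 with hQ
  have hQ0 : 0 ≤ Q := by positivity
  set s : ℝ := d ^ 2 / (3 * Q + d ^ 2) with hs
  have hden : 0 < 3 * Q + d ^ 2 := by positivity
  have hs0 : 0 < s := by positivity
  have hs1 : s ≤ 1 := by
    rw [hs, div_le_one hden]; linarith
  obtain ⟨b, hb1, hb2⟩ := key (1 - s) (by linarith) (by linarith)
  rw [sub_sub_cancel] at hb1 hb2
  have h3 : d ≤ s * (C * ‖b‖ * ‖ξ‖) := by linarith
  have h4 : d ^ 2 ≤ (s * (C * ‖b‖ * ‖ξ‖)) ^ 2 := pow_le_pow_left₀ hd0.le h3 2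
  have h5 : (s * (C * ‖b‖ * ‖ξ‖)) ^ 2 = s ^ 2 * Q * ‖b‖ ^ 2 := by rw [hQ]; ring
  have h6 : s ^ 2 * Q * ‖b‖ ^ 2 ≤ s ^ 2 * Q * (3 / s) := mul_le_mul_of_nonneg_left hb1 (by positivity)
  have h7 : s ^ 2 * Q * (3 / s) = 3 * Q * s := by field_simp
  have h8 : 3 * Q * s < d ^ 2 := by
    rw [hs, ← mul_div_assoc, div_lt_iff₀ hden]
    have : 0 < d ^ 2 := by positivity
    nlinarith
  linarith

end H759R2.Kad
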