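import Mathlib
import Pool.Agent.H759R2.Kad.Props5

open scoped ComplexOrder InnerProductSpace ComplexConjugate
open Finset

noncomputable section

namespace H759R2.Kad

universe u v

theorem prove5_join : F_join.{u} := by
  intro H _ _ _ M hfac p hp q hq hpp hqq hp0 hq0
  by_contra hcon
  push Not at hcon
  set K0 : Submodule ℂ H := Submodule.span ℂ {x | ∃ a ∈ M, ∃ ξ : H, x = a (p ξ)} with hK0
  set K : Submodule ℂ H := K0.topologicalClosure with hK
  haveI : CompleteSpace K := K0.isClosed_topologicalClosure.completeSpace_coe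
  have hgen : ∀ a ∈ M, ∀ ξ : H, a (p ξ) ∈ K := fun a ha ξ =>
    K0.le_topologicalClosure (Submodule.subset_span ⟨a, ha, ξ, rfl⟩)
  have key : ∀ (y : H →L[ℂ] H) (L : Submodule ℂ H), IsClosed (L : Set H) →
      (∀ a ∈ M, ∀ ξ, y (a (p ξ)) ∈ L) → ∀ x ∈ K, y x ∈ L := by
    intro y L hL hy x hx
    have h1 : K0 ≤ L.comap (y : H →ₗ[ℂ] H) := by
      rw [hK0, Submodule.span_le]
      rintro _ ⟨a, ha, ξ, rfl⟩
      exact hy a ha ξ
    have h2 : IsClosed ((L.comap (y : H →ₗ[ℂ] H) : Submodule ℂ H) : Set H) := hL.preimage y.continuous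
    exact K0.topologicalClosure_minimal h1 h2 hx
  have hKc : IsClosed (K : Set H) := K0.isClosed_topologicalClosure
  have hrange : (K.starProjection : H →L[ℂ] H).range = K := Submodule.range_starProjection K
  have hr : K.starProjection ∈ M := by
    rw [VonNeumannAlgebra.IsStarProjection.mem_iff (isStarProjection_starProjection)]
    intro y hy
    rw [hrange]
    intro x hx
    rw [VonNeumannAlgebra.mem_commutant_iff] at hy
    apply key y K hKc _ x hx
    intro a ha ξ
    have h1 : y (a (p ξ)) = a (p (y ξ)) := by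
      have e1 := congrArg (fun T : H →L[ℂ] H => T ξ) (hy (a * p) (mul_mem ha hp))
      simpa using e1.symm
    rw [h1]
    exact hgen a ha _
  have hr' : K.starProjection ∈ M.commutant := by
    rw [VonNeumannAlgebra.IsStarProjection.mem_iff (isStarProjection_starProjection)]
    intro y hy
    rw [VonNeumannAlgebra.commutant_commutant] at hy
    rw [hrange]
    intro x hx
    apply key y K hKc _ x hx
    intro a ha ξ
    exact hgen (y * a) (mul_mem hy ha) ξ
  rw [VonNeumannAlgebra.mem_commutant_iff] at hr'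
  obtain ⟨c, hc⟩ := hfac K.starProjection hr (fun a ha => (hr' a ha).symm)
  obtain ⟨ξ, hξ⟩ : ∃ ξ : H, p ξ ≠ 0 := by
    by_contra h
    push Not at h
    exact hp0 (by ext ξ; simpa using h ξ)
  have h1 : p ξ ∈ K := by simpa using hgen 1 (one_mem M) ξ
  have h2 : K.starProjection (p ξ) = p ξ := Submodule.starProjection_eq_self_iff.2 h1
  have h3 : c • p ξ = p ξ := by
    rw [hc] at h2
    simpa using h2
  have hc1 : c = 1 := by
    have h4 : (c - 1) • p ξ = 0 := by rw [sub_smul, h3, one_smul, sub_self]
    rcases smul_eq_zero.1 h4 with h5 | h5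
    · exact sub_eq_zero.1 h5
    · exact absurd h5 hξ
  have hall : ∀ x : H, x ∈ K := by
    intro x
    rw [← Submodule.starProjection_eq_self_iff, hc, hc1]
    simp
  apply hq0
  ext x
  have h6 := key q ⊥ (by simp) (by
    intro a ha ξ
    have := congrArg (fun T : H →L[ℂ] H => T ξ) (hcon a ha)
    simpa using this) x (hall x)
  simpa using h6

end H759R2.Kad
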